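import Pool.Agent.Helper34.FF.Goals1

/-! Packet StmtMinCut: a minimum cut between two dual-connected sets is a bond. -/

namespace Pool.Agent.Helper27.FF

open Pool.Agent.Helper34.FF Finset
open scoped symmDiff Classical

theorem dc_of_min (h1 : StmtAlg) (h2 : StmtNoCut) {V F : Type} [Fintype V] [Fintype F]
    (T : Tri V F) (hT : T.Sphere) {K D Y : Finset F} (hK : T.DC K) (hD : D.Nonempty) (hKY : K ⊆ Y)
    (hYD : Disjoint Y D) (hmin : ∀ Y', K ⊆ Y' → Disjoint Y' D → T.len Y ≤ T.len Y') :
    T.DC Y := by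
  have hlen : ∀ W : Finset F, W.Nonempty → W ⊆ Y → 1 ≤ T.len W := by
    intro W hW hWY
    unfold Tri.len
    rw [Nat.one_le_iff_ne_zero, Ne, Finset.card_eq_zero]
    intro h
    rcases hT.dual W h with h | h
    · exact hW.ne_empty h
    · obtain ⟨d, hd⟩ := hD
      have hdW : d ∈ W := by rw [h]; exact mem_univ d
      exact Finset.disjoint_left.1 hYD (hWY hdW) hd
  refine ⟨hK.1.mono hKY, fun X hXY hb => ?_⟩
  by_contra hcon
  push Not at hcon
  obtain ⟨hX0, hXne⟩ := hcon
  have hXn : X.Nonempty := hX0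
  have hdn : (Y \ X).Nonempty := by
    rw [Finset.sdiff_nonempty]
    intro h
    exact hXne (Finset.Subset.antisymm hXY h)
  have hbd : T.bdry (Y \ X) = T.bdry Y \ T.bdry X := by
    have e1 : Y \ X = Y ∆ X := by
      ext f
      rw [Finset.mem_symmDiff, Finset.mem_sdiff]
      constructor
      · intro h; exact Or.inl h
      · rintro (h | h)
        · exact h
        · exact absurd (hXY h.1) h.2
    rw [e1, (h1 V F T).1]
    ext e
    rw [Finset.mem_symmDiff, Finset.mem_sdiff]
    constructor
    · rintro (h | h)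
      · exact h
      · exact absurd (hb h.1) h.2
    · intro h; exact Or.inl h
  have hsum : T.len (Y \ X) + T.len X = T.len Y := by
    unfold Tri.len
    rw [hbd, Finset.card_sdiff_add_card_eq_card hb]
  have hno : ∀ e ∈ T.bdry X, e ∉ T.inn K := by
    intro e he hi
    have e1 := hb he
    unfold Tri.bdry at e1
    unfold Tri.inn at hi
    rw [Finset.mem_filter] at e1 hi
    have e2 : (K.filter fun f => T.on e f).card ≤ (Y.filter fun f => T.on e f).card :=
      Finset.card_le_card (Finset.filter_subset_filter _ hKY)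
    rw [e1.2.2, hi.2.2] at e2
    omega
  rcases h2 V F T K X hK hno with h | h
  · have h3 := hmin X h (Finset.disjoint_of_subset_left hXY hYD)
    have h4 := hlen _ hdn Finset.sdiff_subset
    omega
  · have h3 := hmin (Y \ X) (by
      intro f hf
      rw [Finset.mem_sdiff]
      exact ⟨hKY hf, Finset.disjoint_left.1 h hf⟩)
      (Finset.disjoint_of_subset_left Finset.sdiff_subset hYD)
    have h4 := hlen _ hXn hXY
    omega

theorem pf_StmtMinCut (h1 : StmtAlg) (h2 : StmtNoCut) : StmtMinCut := by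
  intro V F _ _ T hT K D Y hK hD hKY hYD hmin
  refine ⟨dc_of_min h1 h2 T hT hK hD.1 hKY hYD hmin, ?_⟩
  have hc : ∀ S, T.len Sᶜ = T.len S := by
    intro S
    unfold Tri.len
    rw [(h1 V F T).2.1 S]
  have hdc : ∀ A B : Finset F, Disjoint A B ↔ B ⊆ Aᶜ := by
    intro A B
    rw [Finset.subset_compl_iff_disjoint_left]
  refine dc_of_min h1 h2 T hT (K := D) (D := K) (Y := Yᶜ) hD hK.1 ((hdc Y D).1 hYD) ?_ ?_
  · rw [hdc, compl_compl]; exact hKY
  · intro Z hZ hZK
    rw [hc Y, ← hc Z]
    apply hmin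
    · rw [← hdc]; exact hZK
    · rw [hdc, compl_compl]; exact hZ

end Pool.Agent.Helper27.FF
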