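import Pool.Agent.Helper34.FF.Goals4
import Pool.Agent.Helper34.FF.G1

/-!
E3. Positions of three vertices on an isometric cycle.
-/

namespace Pool.Agent.Helper27.FF

open Finset
open scoped symmDiff Classical
open Pool.Agent.Helper34.FF

section
variable {V F : Type} [Fintype V] [Fintype F] {T : Tri V F}

theorem isoShift (hS : T.Sphere) {X : Finset F} {l : ℕ} {c : ℤ → V} (hI : T.Iso X l c) (s : ℤ) :
    T.Iso X l (fun t => c (t + s)) := by
  have hEF := pEnumFacts V F T hS X l c hI.1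
  have hsh := hEF.2.2.2.2.2.2.2.2.2 s
  refine ⟨hsh, fun i j hij hjl => ?_⟩
  have h := Pool.Agent.Helper7.FF.dist_int T X l c hI ((i : ℤ) + s) ((j : ℤ) + s)
    (by omega) (by omega)
  simp only
  rw [h]
  omega

theorem isoRev (hS : T.Sphere) {X : Finset F} {l : ℕ} {c : ℤ → V} (hI : T.Iso X l c) :
    T.Iso X l (fun t => c (-t)) := by
  have hEF := pEnumFacts V F T hS X l c hI.1
  have hsh := hEF.2.2.2.2.2.2.2.2.1
  refine ⟨hsh, fun i j hij hjl => ?_⟩
  have h := Pool.Agent.Helper7.FF.dist_int T X l c hI (-(j : ℤ)) (-(i : ℤ))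
    (by omega) (by omega)
  simp only
  rw [SimpleGraph.dist_comm, h]
  omega

theorem posAux {X : Finset F} {l : ℕ} {c : ℤ → V} (hI : T.Iso X l c) {x y z : V}
    {p q : ℕ} (hx : c 0 = x) (hy : c p = y) (hz : c q = z) (h0 : 0 < p) (hpq : p < q)
    (hql : q < l) : T.Pos X l c p q x y z := by
  have h1 := Pool.Agent.Helper7.FF.dist_int T X l c hI 0 p (by omega) (by omega)
  have h2 := Pool.Agent.Helper7.FF.dist_int T X l c hI p q (by omega) (by omega)
  have h3 := Pool.Agent.Helper7.FF.dist_int T X l c hI 0 q (by omega) (by omega)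
  rw [hx, hy] at h1
  rw [hy, hz] at h2
  rw [hx, hz] at h3
  exact ⟨hI, hx, hy, hz, h0, hpq, hql, by omega, by omega, by omega⟩

end

theorem pf_StmtPos : StmtPos := by
  intro V F _ _ T hS X l c x y z hI hx hy hz hxy hyz hxz
  have hEF := pEnumFacts V F T hS X l c hI.1
  have hV := hEF.2.2.2.1
  obtain ⟨i0, rfl⟩ := (hV x).1 hx
  obtain ⟨i1, rfl⟩ := (hV y).1 hy
  obtain ⟨i2, rfl⟩ := (hV z).1 hz
  have hl : (0 : ℤ) < l := by
    have := hI.1.three
    omega
  have hper : ∀ (k i : ℤ), c (i + k * l) = c i := by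
    intro k i
    have hp : Function.Periodic c (l : ℤ) := hI.1.per
    exact (hp.int_mul k) i
  have key : ∀ i1 : ℤ, c i1 ≠ c i0 → ∃ p : ℕ, 0 < p ∧ p < l ∧ c i1 = c (i0 + p) := by
    intro i1 hne
    have h1 : 0 ≤ (i1 - i0) % (l : ℤ) := Int.emod_nonneg _ (by omega)
    have h2 : (i1 - i0) % (l : ℤ) < l := Int.emod_lt_of_pos _ hl
    have h3 := Int.emod_add_mul_ediv (i1 - i0) l
    have h4 : c i1 = c (i0 + (i1 - i0) % (l : ℤ)) := by
      have h5 : i1 = i0 + (i1 - i0) % (l : ℤ) + ((i1 - i0) / (l : ℤ)) * l := by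
        linarith
      have h6 := hper ((i1 - i0) / (l : ℤ)) (i0 + (i1 - i0) % (l : ℤ))
      rw [← h5] at h6
      exact h6
    refine ⟨((i1 - i0) % (l : ℤ)).toNat, ?_, by omega, ?_⟩
    · by_contra h0
      apply hne
      rw [h4]
      congr 1
      omega
    · rw [h4]
      congr 1
      omega
  obtain ⟨p, hp0, hpl, hcp⟩ := key i1 (fun h => hxy h.symm)
  obtain ⟨q, hq0, hql, hcq⟩ := key i2 (fun h => hxz h.symm)
  have hpq : p ≠ q := by
    intro h
    apply hyz
    rw [hcp, hcq, h]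
  rcases lt_or_gt_of_ne hpq with h | h
  · refine ⟨fun t => c (t + i0), p, q, posAux (isoShift hS hI i0) ?_ ?_ ?_ hp0 h hql⟩
    · simp
    · rw [hcp, add_comm]
    · rw [hcq, add_comm]
  · refine ⟨fun t => c (-(t + -i0)), l - p, l - q,
      posAux (isoShift hS (isoRev hS hI) (-i0)) ?_ ?_ ?_ (by omega) (by omega) (by omega)⟩
    · simp
    · rw [hcp]
      have h1 := hper (-1) (i0 + p)
      rw [← h1]
      congr 1
      push_cast [Nat.cast_sub hpl.le]
      ring
    · rw [hcq]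
      have h1 := hper (-1) (i0 + q)
      rw [← h1]
      congr 1
      push_cast [Nat.cast_sub hql.le]
      ring

end Pool.Agent.Helper27.FF
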